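import Pool.Agent.Q240.PR.Stm

/-!
# Job PR-Par: the autocorrelation in terms of the transform
-/

set_option autoImplicit false

open MeasureTheory Complex Filter Topology

namespace Pool.Agent.Q223.PR

open Pool.Agent Pool.Agent.Y23

theorem par : Pool.Agent.Q240.PR.S_Par := by
  intro a t f _ hf
  have h1 := four_one hf t
  have h2 : ∀ y : ℝ, ‖cexp (-((y * I) * t))‖ = 1 := by
    intro y
    have : -((y * I) * t) = ((-(y * t) : ℝ) : ℂ) * I := by push_cast; ring
    rw [this, Complex.norm_exp_ofReal_mul_I]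
  have i1 : Integrable (fun y : ℝ => cexp (-((y * I) * t)) * (gsq f y : ℂ)) := by
    refine (gsq_int hf).mono' ?_ (Eventually.of_forall fun y => ?_)
    · refine Continuous.aestronglyMeasurable (Continuous.mul (by fun_prop) ?_)
      exact Complex.continuous_ofReal.comp (gsq_cont hf)
    · rw [norm_mul, h2, one_mul, Complex.norm_real, Real.norm_eq_abs, abs_of_nonneg (gsq_nonneg f y)]
  have h3 := congrArg Complex.re h1
  have h4 : (∫ y : ℝ, cexp (-((y * I) * t)) * (gsq f y : ℂ)).re =
      ∫ y : ℝ, (cexp (-((y * I) * t)) * (gsq f y : ℂ)).re := (integral_re i1).symm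
  rw [h4] at h3
  have h5 : ∀ y : ℝ, (cexp (-((y * I) * t)) * (gsq f y : ℂ)).re =
      ‖TT f (y * I)‖ ^ 2 * Real.cos (t * y) := by
    intro y
    have e : -((y * I) * t) = ((-(t * y) : ℝ) : ℂ) * I := by push_cast; ring
    rw [e, Complex.re_mul_ofReal, Complex.exp_ofReal_mul_I_re, Real.cos_neg, mul_comm]
    rfl
  simp only [h5] at h3
  rw [h3]
  have e : (2 * (Real.pi : ℂ) * CC f t) = (((2 * Real.pi : ℝ) : ℂ) * CC f t) := by push_cast; ring
  rw [e, Complex.re_ofReal_mul]
  rfl

end Pool.Agent.Q223.PR
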